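import Mathlib
import Pool.Agent.AnQ2.Ent

set_option autoImplicit false

/-!
# Equivalent real-analytic flows exchanging entropy and periodic-orbit growth

There are a compact connected real-analytic manifold (the torus `(ℝ/ℤ)^6`) and two equivalent
real-analytic flows on it, the first with positive entropy and zero exponential growth of periodic
orbits, the second with zero entropy and super-exponential growth of periodic orbits.
-/

namespace Pool.Agent.Results.MP_1a349f_an.AnalyticExchange

open Set Filter Topology
open scoped Manifold ContDiff ENNReal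
open Pool.Agent.AnQ2

/-- There exist a compact connected real-analytic manifold `M` without boundary and two equivalent
real-analytic flows `ψ`, `ψ'` on `M` with `h(ψ) > 0`, `EP(ψ) = 0`, `h(ψ') = 0` and `EP(ψ') = ∞`,
for both the strongest and the weakest reading of `isolated` in the definition of `EP`. -/
theorem result :
    ∃ (E : Type) (_ : NormedAddCommGroup E) (_ : NormedSpace ℝ E) (_ : FiniteDimensional ℝ E)
      (M : Type) (_ : MetricSpace M) (_ : ChartedSpace E M) (_ : IsManifold 𝓘(ℝ, E) ω M)
      (_ : CompactSpace M) (_ : ConnectedSpace M) (ψ ψ' : ℝ → M → M),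
      IsAnalyticFlow (E := E) ψ ∧ IsAnalyticFlow (E := E) ψ' ∧ Equivalent ψ ψ' ∧
      0 < entropy ψ ∧ EP IsolatedStrong ψ = 0 ∧ EP IsolatedWeak ψ = 0 ∧
      entropy ψ' = 0 ∧ EP IsolatedStrong ψ' = ⊤ ∧ EP IsolatedWeak ψ' = ⊤ := by
  refine ⟨Fin 6 → ℝ, inferInstance, inferInstance, inferInstance,
    Pool.Agent.MP_1a349f_an.Torus 6, inferInstance,
    Pool.Agent.MP_1a349f_an.instChartedSpaceTorus 6,
    Pool.Agent.AnQ2.instIsManifoldTorusOmega 6, inferInstance, inferInstance,
    tf hA, tf hB, isAnalyticFlow good_VA contDiff_omega_VA,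
    isAnalyticFlow good_VB contDiff_omega_VB, equivalent_AB,
    entropy_A_pos, EP_A.1, EP_A.2, entropy_B_zero, EP_B.1, EP_B.2⟩

end Pool.Agent.Results.MP_1a349f_an.AnalyticExchange
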