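import Mathlib
import Pool.Agent.MP_1a349f_an.EntropyPos
import Pool.Agent.MP_1a349f_an.Count
import Pool.Agent.MP_1a349f_an.EPLemmas

set_option autoImplicit false

/-!
# Equivalent smooth flows exchanging entropy and periodic-orbit growth

There are a compact connected smooth manifold (the torus `(ℝ/ℤ)^5`) and two equivalent `C^∞`
flows on it, the first with positive entropy and zero exponential growth of periodic orbits, the
second with zero entropy and super-exponential growth of periodic orbits.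
-/

namespace Pool.Agent.Results.MP_1a349f_an.EntropyOrbitExchange

open Set Filter Topology
open scoped Manifold ContDiff ENNReal

section Defs

variable {M : Type*}

/-- The orbit of a point under `φ`. -/
def orbit (φ : ℝ → M → M) (x : M) : Set M := Set.range fun t => φ t x

/-- `φ` and `ψ` are equivalent: a homeomorphism `π` maps each orbit of `φ` onto an orbit of `ψ`,
preserving the time orientation (time is changed along each orbit by an increasing bijection
`τ` of the line). -/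
def Equivalent [TopologicalSpace M] (φ ψ : ℝ → M → M) : Prop :=
  ∃ π : M ≃ₜ M, ∀ x, ∃ τ : ℝ ≃o ℝ, τ 0 = 0 ∧ ∀ t, π (φ t x) = ψ (τ t) (π x)

/-- The topological entropy of a flow: the (Bowen) topological entropy of its time-one map. -/
noncomputable def entropy [UniformSpace M] (φ : ℝ → M → M) : EReal :=
  Dynamics.coverEntropy (φ 1) Set.univ

/-- `x` is a periodic point with a period in `(0, t]`. -/
def PeriodicUpTo (φ : ℝ → M → M) (t : ℝ) (x : M) : Prop := ∃ s, 0 < s ∧ s ≤ t ∧ φ s x = x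

/-- The strongest reading of `the orbit O is isolated`: it has a neighbourhood in which every
periodic point, of whatever period, lies on `O`. -/
def IsolatedStrong [TopologicalSpace M] (φ : ℝ → M → M) (_t : ℝ) (O : Set M) : Prop :=
  ∃ U : Set M, IsOpen U ∧ O ⊆ U ∧ ∀ y ∈ U, (∃ s, 0 < s ∧ φ s y = y) → y ∈ O

/-- The weakest reading of `the orbit O is isolated`: it has a neighbourhood which contains no
other complete orbit that is closed with a period in `(0, t]`. -/
def IsolatedWeak [TopologicalSpace M] (φ : ℝ → M → M) (t : ℝ) (O : Set M) : Prop :=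
  ∃ U : Set M, IsOpen U ∧ O ⊆ U ∧ ∀ y, orbit φ y ⊆ U → PeriodicUpTo φ t y → y ∈ O

/-- `P_t(φ)`: the set of orbits of `φ` that are isolated (in the sense `I`) and consist of points
`x` with `φ s x = x` for some `0 < s ≤ t`. -/
def P (I : (ℝ → M → M) → ℝ → Set M → Prop) (φ : ℝ → M → M) (t : ℝ) : Set (Set M) :=
  {O | (∃ x, O = orbit φ x) ∧ (∀ x ∈ O, PeriodicUpTo φ t x) ∧ I φ t O}

/-- `EP(φ) = limsup_{t → ∞} (1/t) log #P_t(φ)`, where `I` says what `isolated` means. -/
noncomputable def EP (I : (ℝ → M → M) → ℝ → Set M → Prop) (φ : ℝ → M → M) : EReal :=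
  limsup (fun t : ℝ => ENNReal.log ((P I φ t).encard : ℝ≥0∞) / (t : EReal)) atTop

end Defs

/-- `φ` is a `C^∞` flow on the manifold `M` (modelled on `E`): the flow of a `C^∞` vector
field `X`, that is, its trajectories are the integral curves of `X`. -/
def IsSmoothFlow {E : Type*} [NormedAddCommGroup E] [NormedSpace ℝ E] {M : Type*}
    [TopologicalSpace M] [ChartedSpace E M] [IsManifold 𝓘(ℝ, E) ∞ M] (φ : ℝ → M → M) : Prop :=
  ∃ X : (x : M) → TangentSpace 𝓘(ℝ, E) x,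
    ContMDiff 𝓘(ℝ, E) 𝓘(ℝ, E).tangent ∞ (fun x => (⟨x, X x⟩ : TangentBundle 𝓘(ℝ, E) M)) ∧
    (∀ x, φ 0 x = x) ∧ (∀ s t x, φ (s + t) x = φ s (φ t x)) ∧
    ∀ x, IsMIntegralCurve (I := 𝓘(ℝ, E)) (fun t => φ t x) X

open Pool.Agent.MP_1a349f_an in
theorem smooth {V : (Fin 5 → ℝ) → (Fin 5 → ℝ)} (hV : Good V) :
    IsSmoothFlow (E := Fin 5 → ℝ) (M := Torus 5) (tflow V) := by
  refine ⟨field V, contMDiff_field hV.per hV.contDiff, hV.tflow_zero, hV.tflow_add, fun x => ?_⟩
  exact isMIntegralCurve_cov hV.per (fun t => flow V t (lift x)) (hV.hasDerivAt_flow (lift x))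

open Pool.Agent.MP_1a349f_an in
theorem strong_mem {X : (Fin 5 → ℝ) → (Fin 5 → ℝ)} {p : (Fin 5 → ℝ) → ℝ} {g : ℝ → ℝ} {c : ℝ}
    (hX : Both X p g c) {k : ℕ} (hk : 2 ≤ k) {t s : ℝ} (hs : 0 < s) (hst : s ≤ t)
    (h : spd g c k * s = 2 * Real.pi) :
    G k ∈ P IsolatedStrong (tflow X) t ∧ G k ∈ P IsolatedWeak (tflow X) t := by
  obtain ⟨m, hm⟩ := G_nonempty hk
  have h1 : ∃ x, G k = orbit (tflow X) x := ⟨m, (hX.orb_G hk hm).symm⟩
  have h2 : ∀ x ∈ G k, PeriodicUpTo (tflow X) t x := fun x hx =>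
    ⟨s, hs, hst, hX.return_G hk hx (n := 1) (by rw [h]; simp)⟩
  have h3 := hX.strongIso_G hk
  exact ⟨⟨h1, h2, h3⟩, ⟨h1, h2, h3.weakIso hX.disc.good.tflow_zero t⟩⟩

open Pool.Agent.MP_1a349f_an in
theorem weak_classify {X : (Fin 5 → ℝ) → (Fin 5 → ℝ)} {p : (Fin 5 → ℝ) → ℝ} {g : ℝ → ℝ} {c : ℝ}
    (hX : Both X p g c) {t : ℝ} {O : Set (Torus 5)} (hO : O ∈ P IsolatedWeak (tflow X) t) :
    ∃ k : ℕ, 2 ≤ k ∧ O = G k ∧ ∃ m ∈ G k, ∃ s, 0 < s ∧ s ≤ t ∧ tflow X s m = m := by
  obtain ⟨⟨x, rfl⟩, h2, h3⟩ := hO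
  obtain ⟨s, hs, hst, hper⟩ := h2 x ⟨0, hX.disc.good.tflow_zero x⟩
  obtain ⟨k, hk, hxk, ho⟩ := hX.classify hs hst hper h3
  exact ⟨k, hk, ho, x, hxk, s, hs, hst, hper⟩

open Pool.Agent.MP_1a349f_an in
theorem strong_sub_weak {X : (Fin 5 → ℝ) → (Fin 5 → ℝ)} (hX : Good X) {t : ℝ}
    {O : Set (Torus 5)} (hO : O ∈ P IsolatedStrong (tflow X) t) :
    O ∈ P IsolatedWeak (tflow X) t :=
  ⟨hO.1, hO.2.1, StrongIso.weakIso hO.2.2 hX.tflow_zero t⟩

open Pool.Agent.MP_1a349f_an in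
theorem X1_period {k : ℕ} (hk : 2 ≤ k) {m : Torus 5} (hm : m ∈ G k) {s : ℝ} (hs : 0 < s)
    (h : tflow X1 s m = m) : (k : ℝ) ≤ s := by
  obtain ⟨n, hn⟩ := both_X1.period_G hk hm h
  have hk0 : (0 : ℝ) < k := by
    have : 0 < k := by omega
    exact_mod_cast this
  have h1 : s = k * n := by
    rw [spd] at hn
    field_simp at hn
    linarith
  have h2 : (0 : ℝ) < n := by
    by_contra hc
    have : (k : ℝ) * n ≤ 0 := mul_nonpos_of_nonneg_of_nonpos hk0.le (not_lt.1 hc)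
    linarith
  have h3 : (1 : ℤ) ≤ n := by
    have : (0 : ℤ) < n := by exact_mod_cast h2
    omega
  have h4 : (1 : ℝ) ≤ n := by exact_mod_cast h3
  rw [h1]
  nlinarith

open Pool.Agent.MP_1a349f_an in
theorem X1_speed {k : ℕ} (hk : 2 ≤ k) :
    spd (fun v => 100 * v) (2 * Real.pi) k * (k : ℝ) = 2 * Real.pi := by
  have hk0 : (0 : ℝ) < k := by
    have : 0 < k := by omega
    exact_mod_cast this
  rw [spd]
  field_simp

open Pool.Agent.MP_1a349f_an in
theorem EP_X1 : EP IsolatedStrong (tflow X1) = 0 ∧ EP IsolatedWeak (tflow X1) = 0 := by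
  have key : ∀ t : ℝ, ∀ O ∈ P IsolatedWeak (tflow X1) t,
      ∃ k : ℕ, 2 ≤ k ∧ (k : ℝ) ≤ t ∧ O = G k := by
    intro t O hO
    obtain ⟨k, hk, rfl, m, hm, s, hs, hst, hper⟩ := weak_classify both_X1 hO
    exact ⟨k, hk, (X1_period hk hm hs hper).trans hst, rfl⟩
  have hmem : ∀ t : ℝ, 2 ≤ t → G 2 ∈ P IsolatedStrong (tflow X1) t ∧
      G 2 ∈ P IsolatedWeak (tflow X1) t := by
    intro t ht
    refine strong_mem both_X1 le_rfl (s := 2) two_pos ht ?_
    have := X1_speed (k := 2) le_rfl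
    exact_mod_cast this
  constructor
  · exact limsup_growth_zero _ G (fun t ht => ⟨_, (hmem t ht).1⟩)
      (fun t O hO => key t O (strong_sub_weak good_X1 hO))
  · exact limsup_growth_zero _ G (fun t ht => ⟨_, (hmem t ht).2⟩) key

open Pool.Agent.MP_1a349f_an in
theorem EP_X2 : EP IsolatedStrong (tflow X2) = ⊤ ∧ EP IsolatedWeak (tflow X2) = ⊤ := by
  have hmem : ∀ t : ℝ, 1 ≤ t → ∀ k : ℕ, G (k + 2) ∈ P IsolatedStrong (tflow X2) t ∧
      G (k + 2) ∈ P IsolatedWeak (tflow X2) t := by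
    intro t ht k
    exact strong_mem both_X2 (by omega) (s := 1) one_pos ht (by rw [spd]; ring)
  have hinj : Function.Injective fun k : ℕ => G (k + 2) := by
    intro k l h
    have := G_injective (by omega) (by omega) h
    omega
  constructor
  · refine limsup_growth_top _ fun t ht => ?_
    exact infinite_of_injective_forall_mem hinj fun k => (hmem t ht k).1
  · refine limsup_growth_top _ fun t ht => ?_
    exact infinite_of_injective_forall_mem hinj fun k => (hmem t ht k).2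

/-- There exist a compact connected `C^∞` manifold `M` without boundary and two equivalent `C^∞`
flows `ψ`, `ψ'` on `M` with `h(ψ) > 0`, `EP(ψ) = 0`, `h(ψ') = 0` and `EP(ψ') = ∞`, for both the
strongest and the weakest reading of `isolated` in the definition of `EP`. -/
theorem result :
    ∃ (E : Type) (_ : NormedAddCommGroup E) (_ : NormedSpace ℝ E) (_ : FiniteDimensional ℝ E)
      (M : Type) (_ : MetricSpace M) (_ : ChartedSpace E M) (_ : IsManifold 𝓘(ℝ, E) ∞ M)
      (_ : CompactSpace M) (_ : ConnectedSpace M) (ψ ψ' : ℝ → M → M),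
      IsSmoothFlow (E := E) ψ ∧ IsSmoothFlow (E := E) ψ' ∧ Equivalent ψ ψ' ∧
      0 < entropy ψ ∧ EP IsolatedStrong ψ = 0 ∧ EP IsolatedWeak ψ = 0 ∧
      entropy ψ' = 0 ∧ EP IsolatedStrong ψ' = ⊤ ∧ EP IsolatedWeak ψ' = ⊤ := by
  refine ⟨Fin 5 → ℝ, inferInstance, inferInstance, inferInstance,
    Pool.Agent.MP_1a349f_an.Torus 5, inferInstance,
    Pool.Agent.MP_1a349f_an.instChartedSpaceTorus 5,
    Pool.Agent.MP_1a349f_an.instIsManifoldTorus 5, inferInstance, inferInstance,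
    Pool.Agent.MP_1a349f_an.tflow Pool.Agent.MP_1a349f_an.X1,
    Pool.Agent.MP_1a349f_an.tflow Pool.Agent.MP_1a349f_an.X2,
    smooth Pool.Agent.MP_1a349f_an.good_X1, smooth Pool.Agent.MP_1a349f_an.good_X2, ?_,
    Pool.Agent.MP_1a349f_an.entropy_X1_pos, EP_X1.1, EP_X1.2,
    Pool.Agent.MP_1a349f_an.entropy_X2_zero, EP_X2.1, EP_X2.2⟩
  refine ⟨Homeomorph.refl _, fun x => ?_⟩
  obtain ⟨τ, h0, h⟩ := Pool.Agent.MP_1a349f_an.flows_equiv (Pool.Agent.MP_1a349f_an.lift x)
  refine ⟨τ, h0, fun t => ?_⟩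
  exact congrArg Pool.Agent.MP_1a349f_an.cov (h t)

end Pool.Agent.Results.MP_1a349f_an.EntropyOrbitExchange
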